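import Mathlib
import Pool.Agent.H.MP_b0a983_gt.B

set_option autoImplicit false

open Set Topology

namespace Pool.Agent.Results.MP_b0a983_gt.Example

/-- the local small inductive dimension of `X` at `x` is at most `n` -/
def IndLE {X : Type} [TopologicalSpace X] (x : X) (n : ℕ) : Prop :=
  ∀ U ∈ 𝓝 x, ∃ V, IsOpen V ∧ x ∈ V ∧ V ⊆ U ∧ HasSmallInductiveDimensionLT (frontier V) n

theorem result : ∃ (X : Type) (_ : MetricSpace X), CompactSpace X ∧ ConnectedSpace X ∧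
    (∀ x : X, IndLE x 2 ∧ ¬ IndLE x 1) ∧
    ∃ f : X → unitInterval, Continuous f ∧ Function.Surjective f ∧
      ∀ K : Set X, IsClosed K → f '' K = univ → ¬ IsTotallyDisconnected K := by
  refine ⟨H.MP_b0a983_gt.S, inferInstance, isCompact_iff_compactSpace.1 H.MP_b0a983_gt.cS,
    isConnected_iff_connectedSpace.1 H.MP_b0a983_gt.conn,
    fun x => ⟨H.MP_b0a983_gt.up x, H.MP_b0a983_gt.two x⟩,
    fun x => ⟨(x.1.1 + 1) / 2, by linarith [x.2.1.1.1], by linarith [x.2.1.2.1]⟩, by fun_prop,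
    fun t => ?_, fun K h1 h2 => H.MP_b0a983_gt.sec h1 fun t ht => ?_⟩
  · rcases lt_or_ge 0 (2 * t.1 - 1) with h | h
    · exact ⟨⟨_, H.MP_b0a983_gt.mem h (by linarith [t.2.2]) (s := 0) (by simp)⟩,
        Subtype.ext (by simp)⟩
    · exact ⟨⟨(2 * t.1 - 1, 0), ⟨⟨by linarith [t.2.1], by simp⟩, by linarith, by simp⟩, .inl h⟩,
        Subtype.ext (by simp)⟩
  · obtain ⟨x, x1, x2⟩ := h2.ge (mem_univ ⟨(t + 1) / 2, by linarith [ht.1], by linarith [ht.2]⟩)
    exact ⟨x, x1, by simpa using x2⟩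

end Pool.Agent.Results.MP_b0a983_gt.Example
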